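import Mathlib
import Pool.Agent.H6.Lower

/-!
Upper bound for the number of `z ≤ X` with `x z + 1` and `y z + 1` both prime (`x ∣ 6`, `y ≠ x`).
-/

open Finset BoundingSieve ArithmeticFunction
open scoped ArithmeticFunction.Moebius ArithmeticFunction.zeta

namespace Pool.Agent.TTP

open Pool.Agent.H6

noncomputable section

/-- `k` is the distance between `x` and `y` -/
def Dist (x y k : ℕ) : Prop := x + k = y ∨ y + k = x

theorem dvd_iff_lin {x y k z p : ℕ} (hk : Dist x y k) (h : p ∣ y * z + 1) (hp : p.Prime) :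
    p ∣ x * z + 1 ↔ p ∣ k := by
  have hz : ∀ a : ℕ, p ∣ a * z + 1 → ¬ p ∣ z := by
    intro a h1 h2
    have h3 : p ∣ 1 := (Nat.dvd_add_right (Dvd.dvd.mul_left h2 a)).mp h1
    exact hp.one_lt.ne' (Nat.dvd_one.mp h3)
  rcases hk with hk | hk
  · have e : y * z + 1 = (x * z + 1) + k * z := by rw [← hk]; ring
    constructor
    · intro h1
      have h2 : p ∣ k * z := (Nat.dvd_add_right h1).mp (e ▸ h)
      exact (hp.dvd_mul.mp h2).resolve_right (hz x h1)
    · intro h1
      exact (Nat.dvd_add_left (Dvd.dvd.mul_right h1 z)).mp (e ▸ h)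
  · have e : x * z + 1 = (y * z + 1) + k * z := by rw [← hk]; ring
    constructor
    · intro h1
      have h2 : p ∣ k * z := (Nat.dvd_add_right h).mp (e ▸ h1)
      exact (hp.dvd_mul.mp h2).resolve_right (hz y h)
    · intro h1
      rw [e]
      exact Nat.dvd_add h (Dvd.dvd.mul_right h1 z)

theorem exists_root (a x : ℕ) (ha : 0 < a) (h : Nat.Coprime a x) :
    ∃ r : ℕ, x * r + 1 ≡ 0 [MOD a] := by
  have hu : IsUnit (x : ZMod a) := by
    rw [ZMod.isUnit_iff_coprime]
    exact h.symm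
  obtain ⟨u, hu⟩ := hu
  haveI : NeZero a := ⟨ha.ne'⟩
  refine ⟨(-(u⁻¹ : (ZMod a)ˣ) : ZMod a).val, ?_⟩
  rw [← ZMod.natCast_eq_natCast_iff]
  push_cast
  rw [ZMod.natCast_zmod_val, ← hu]
  simp

theorem root_iff {a x r : ℕ} (h : Nat.Coprime a x) (hr : x * r + 1 ≡ 0 [MOD a]) (n : ℕ) :
    a ∣ x * n + 1 ↔ n ≡ r [MOD a] := by
  constructor
  · intro h2
    have h3 : x * n + 1 ≡ x * r + 1 [MOD a] := ((Nat.modEq_zero_iff_dvd).mpr h2).trans hr.symm
    have h4 : x * n ≡ x * r [MOD a] := Nat.ModEq.add_right_cancel' 1 h3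
    exact Nat.ModEq.cancel_left_of_coprime (by rw [h]) h4
  · intro h5
    exact (Nat.modEq_zero_iff_dvd).mp (((h5.mul_left x).add_right 1).trans hr)

/-- the counting of `z ≤ X` with `d ∣ (x z + 1) (y z + 1)` for squarefree `d` coprime to `6` -/
theorem card_dvd_lin (x y k X d : ℕ) (hk : Dist x y k) (hd : Squarefree d)
    (hx : Nat.Coprime d x) (h6 : Nat.Coprime d 6) :
    |(((Finset.Icc 1 X).filter (fun n => d ∣ (x * n + 1) * (y * n + 1))).card : ℝ) -
      (((d.divisors.filter (fun b => Nat.Coprime b (6 * (y * k)))).card : ℝ) * ((X : ℝ) / d))| ≤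
      ((d.divisors.filter (fun b => Nat.Coprime b (6 * (y * k)))).card : ℝ) := by
  have hd0 : d ≠ 0 := hd.ne_zero
  have hdpos : 0 < d := Nat.pos_of_ne_zero hd0
  -- decomposition
  have hdec : ∀ n : ℕ, (if d ∣ (x * n + 1) * (y * n + 1) then (1 : ℝ) else 0) =
      ∑ b ∈ d.divisors.filter (fun b => Nat.Coprime b (6 * (y * k))),
        if (d / b ∣ x * n + 1 ∧ b ∣ y * n + 1) then (1 : ℝ) else 0 := by
    intro n
    have hcop : ∀ b : ℕ, Nat.Coprime b (6 * (y * k)) → b ∣ y * n + 1 →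
        Nat.Coprime b (x * n + 1) := by
      intro b hb6 hb
      apply Nat.coprime_of_dvd
      intro p hp h1 h2
      have h3 : p ∣ k := (dvd_iff_lin hk (h1.trans hb) hp).mp h2
      have h4 : p ∣ Nat.gcd b (6 * (y * k)) :=
        Nat.dvd_gcd h1 (Dvd.dvd.mul_left (Dvd.dvd.mul_left h3 y) 6)
      rw [hb6] at h4
      exact hp.one_lt.ne' (Nat.dvd_one.mp h4)
    split_ifs with h
    · -- `b` is the part of `d` coprime to `x n + 1`
      set b := d / Nat.gcd d (x * n + 1) with hb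
      have hgd : Nat.gcd d (x * n + 1) ∣ d := Nat.gcd_dvd_left _ _
      have hbd : b ∣ d := Nat.div_dvd_of_dvd hgd
      have hgb : d / b = Nat.gcd d (x * n + 1) := by
        rw [hb]; exact Nat.div_div_self hgd hd0
      have hcopbg : Nat.Coprime b (Nat.gcd d (x * n + 1)) := by
        apply Nat.coprime_of_squarefree_mul
        rw [hb, Nat.div_mul_cancel hgd]
        exact hd
      have hbn : Nat.Coprime b (x * n + 1) := by
        apply Nat.coprime_of_dvd
        intro p hp h1 h2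
        have h3 : p ∣ Nat.gcd d (x * n + 1) := Nat.dvd_gcd (h1.trans hbd) h2
        have h4 : p ∣ Nat.gcd b (Nat.gcd d (x * n + 1)) := Nat.dvd_gcd h1 h3
        rw [hcopbg] at h4
        exact hp.one_lt.ne' (Nat.dvd_one.mp h4)
      have hb6n : b ∣ y * n + 1 := hbn.dvd_of_dvd_mul_left (hbd.trans h)
      have hb6 : Nat.Coprime b (6 * (y * k)) := by
        apply Nat.coprime_of_dvd
        intro p hp h1 h2
        rcases hp.dvd_mul.mp h2 with h3 | h3
        · have h4 : p ∣ Nat.gcd d 6 := Nat.dvd_gcd (h1.trans hbd) h3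
          rw [h6] at h4
          exact hp.one_lt.ne' (Nat.dvd_one.mp h4)
        · rcases hp.dvd_mul.mp h3 with h4 | h4
          · have h5 : p ∣ 1 := (Nat.dvd_add_right (Dvd.dvd.mul_right h4 n)).mp (h1.trans hb6n)
            exact hp.one_lt.ne' (Nat.dvd_one.mp h5)
          · have h5 : p ∣ x * n + 1 := (dvd_iff_lin hk (h1.trans hb6n) hp).mpr h4
            have h4 : p ∣ Nat.gcd b (x * n + 1) := Nat.dvd_gcd h1 h5
            rw [hbn] at h4
            exact hp.one_lt.ne' (Nat.dvd_one.mp h4)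
      have hmem : b ∈ d.divisors.filter (fun b => Nat.Coprime b (6 * (y * k))) := by
        rw [Finset.mem_filter, Nat.mem_divisors]
        exact ⟨⟨hbd, hd0⟩, hb6⟩
      rw [Finset.sum_eq_single_of_mem b hmem]
      · rw [if_pos]
        refine ⟨?_, hb6n⟩
        rw [hgb]
        exact Nat.gcd_dvd_right _ _
      · intro b' hb' hne
        rw [Finset.mem_filter, Nat.mem_divisors] at hb'
        rw [if_neg]
        rintro ⟨h1, h2⟩
        apply hne
        have hb'n : Nat.Coprime b' (x * n + 1) := hcop b' hb'.2 h2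
        have h3 : d / b' ∣ Nat.gcd d (x * n + 1) := Nat.dvd_gcd (Nat.div_dvd_of_dvd hb'.1.1) h1
        have h4 : Nat.gcd d (x * n + 1) ∣ d / b' := by
          have h5 : Nat.Coprime (Nat.gcd d (x * n + 1)) b' :=
            (Nat.Coprime.coprime_dvd_right (Nat.gcd_dvd_right d (x * n + 1)) hb'n).symm
          have h6 : Nat.gcd d (x * n + 1) ∣ (d / b') * b' := by
            rw [Nat.div_mul_cancel hb'.1.1]; exact hgd
          exact h5.dvd_of_dvd_mul_right h6
        have h5 : d / b' = Nat.gcd d (x * n + 1) := Nat.dvd_antisymm h3 h4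
        rw [hb, ← h5, Nat.div_div_self hb'.1.1 hd0]
    · symm
      apply Finset.sum_eq_zero
      intro b hb
      rw [Finset.mem_filter, Nat.mem_divisors] at hb
      rw [if_neg]
      rintro ⟨h1, h2⟩
      apply h
      have := Nat.mul_dvd_mul h1 h2
      rwa [Nat.div_mul_cancel hb.1.1] at this
  -- each class
  have hclass : ∀ b ∈ d.divisors.filter (fun b => Nat.Coprime b (6 * (y * k))),
      |(∑ n ∈ Finset.Icc 1 X, if (d / b ∣ x * n + 1 ∧ b ∣ y * n + 1) then (1 : ℝ) else 0) -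
        (X : ℝ) / d| ≤ 1 := by
    intro b hb
    rw [Finset.mem_filter, Nat.mem_divisors] at hb
    obtain ⟨⟨hbd, _⟩, hbm⟩ := hb
    have hbpos : 0 < b := Nat.pos_of_dvd_of_pos hbd hdpos
    have hdbd : d / b ∣ d := Nat.div_dvd_of_dvd hbd
    have hcop3 : Nat.Coprime (d / b) b := by
      apply Nat.coprime_of_squarefree_mul
      rwa [Nat.div_mul_cancel hbd]
    have hca : Nat.Coprime (d / b) x := Nat.Coprime.coprime_dvd_left hdbd hx
    have hcb : Nat.Coprime b y :=
      Nat.Coprime.coprime_dvd_right (Dvd.dvd.mul_left (Dvd.intro k rfl) 6) hbm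
    obtain ⟨r1, hr1⟩ := exists_root (d / b) x (Nat.pos_of_dvd_of_pos hdbd hdpos) hca
    obtain ⟨r2, hr2⟩ := exists_root b y hbpos hcb
    obtain ⟨c, hc1, hc2⟩ := Nat.chineseRemainder hcop3 r1 r2
    have hiff : ∀ n : ℕ, (d / b ∣ x * n + 1 ∧ b ∣ y * n + 1) ↔ n ≡ c [MOD d] := by
      intro n
      have hd' : d = (d / b) * b := (Nat.div_mul_cancel hbd).symm
      rw [root_iff hca hr1 n, root_iff hcb hr2 n]
      constructor
      · rintro ⟨h1, h2⟩
        rw [hd', ← Nat.modEq_and_modEq_iff_modEq_mul hcop3]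
        exact ⟨h1.trans hc1.symm, h2.trans hc2.symm⟩
      · intro h
        rw [hd', ← Nat.modEq_and_modEq_iff_modEq_mul hcop3] at h
        exact ⟨h.1.trans hc1, h.2.trans hc2⟩
    simp_rw [hiff]
    rw [Finset.sum_boole]
    exact card_modEq_Icc X d c hdpos
  have hcount : (((Finset.Icc 1 X).filter (fun n => d ∣ (x * n + 1) * (y * n + 1))).card : ℝ) =
      ∑ b ∈ d.divisors.filter (fun b => Nat.Coprime b (6 * (y * k))),
        ∑ n ∈ Finset.Icc 1 X, if (d / b ∣ x * n + 1 ∧ b ∣ y * n + 1) then (1 : ℝ) else 0 := by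
    rw [← Finset.sum_boole]
    simp_rw [hdec]
    rw [Finset.sum_comm]
  rw [hcount]
  have : (((d.divisors.filter (fun b => Nat.Coprime b (6 * (y * k)))).card : ℝ) * ((X : ℝ) / d)) =
      ∑ b ∈ d.divisors.filter (fun b => Nat.Coprime b (6 * (y * k))), (X : ℝ) / d := by
    rw [Finset.sum_const, nsmul_eq_mul]
  rw [this, ← Finset.sum_sub_distrib]
  refine (Finset.abs_sum_le_sum_abs _ _).trans ?_
  refine (Finset.sum_le_sum hclass).trans ?_
  rw [Finset.sum_const, nsmul_eq_mul, mul_one]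

/-- product of the primes `5 ≤ p ≤ D` -/
def P6 (D : ℕ) : ℕ := primorial D / Nat.gcd (primorial D) 6

theorem P6_dvd (D : ℕ) : P6 D ∣ primorial D := Nat.div_dvd_of_dvd (Nat.gcd_dvd_left _ _)

theorem P6_sq (D : ℕ) : Squarefree (P6 D) :=
  (squarefree_primorial D).squarefree_of_dvd (P6_dvd D)

theorem P6_mul (D : ℕ) : P6 D * Nat.gcd (primorial D) 6 = primorial D :=
  Nat.div_mul_cancel (Nat.gcd_dvd_left _ _)

theorem P6_coprime (D : ℕ) : Nat.Coprime (P6 D) 6 := by
  apply Nat.coprime_of_dvd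
  intro p hp h1 h2
  have h3 : p ∣ Nat.gcd (primorial D) 6 := Nat.dvd_gcd (h1.trans (P6_dvd D)) h2
  have h4 : p * p ∣ primorial D := by
    rw [← P6_mul D]
    exact Nat.mul_dvd_mul h1 h3
  have := squarefree_primorial D p h4
  exact hp.one_lt.ne' (Nat.isUnit_iff.mp this)

theorem dvd_P6 {D l : ℕ} (h : l ∣ primorial D) (h6 : Nat.Coprime l 6) : l ∣ P6 D := by
  have h1 : l ∣ P6 D * Nat.gcd (primorial D) 6 := by rw [P6_mul]; exact h
  exact (Nat.Coprime.coprime_dvd_right (Nat.gcd_dvd_right _ _) h6).dvd_of_dvd_mul_right h1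

theorem two_dvd_six_mul (a : ℕ) : 2 ∣ 6 * a := Dvd.dvd.mul_right (by norm_num) a

/-- the sieve for pairs `x z + 1`, `y z + 1` -/
def linSieve (x y k X z : ℕ) : BoundingSieve where
  support := (Finset.Icc 1 X).image (fun n => (x * n + 1) * (y * n + 1))
  prodPrimes := P6 z
  prodPrimes_squarefree := P6_sq z
  weights := fun _ => 1
  weights_nonneg := fun _ => zero_le_one
  totalMass := X
  nu := prodPrimeFactors (locF (6 * (y * k)))
  nu_mult := IsMultiplicative.prodPrimeFactors _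
  nu_pos_of_prime := fun p hp h =>
    (pairSieve (6 * (y * k)) X z (two_dvd_six_mul _)).nu_pos_of_prime p hp (h.trans (P6_dvd z))
  nu_lt_one_of_prime := fun p hp h =>
    (pairSieve (6 * (y * k)) X z (two_dvd_six_mul _)).nu_lt_one_of_prime p hp (h.trans (P6_dvd z))

theorem lin_injOn (x y X : ℕ) (hx : 0 < x) :
    Set.InjOn (fun n => (x * n + 1) * (y * n + 1)) (Finset.Icc 1 X : Set ℕ) := by
  have hmono : ∀ a b : ℕ, a < b → (x * a + 1) * (y * a + 1) < (x * b + 1) * (y * b + 1) := by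
    intro a b h
    have h1 : x * a < x * b := Nat.mul_lt_mul_of_pos_left h hx
    have h2 : y * a ≤ y * b := Nat.mul_le_mul_left y h.le
    apply Nat.mul_lt_mul_of_lt_of_le
    · omega
    · omega
    · omega
  intro a _ b _ hab
  dsimp only at hab
  rcases lt_trichotomy a b with h | h | h
  · have := hmono a b h; omega
  · exact h
  · have := hmono b a h; omega

theorem lin_multSum (x y k X z d : ℕ) (hx : 0 < x) :
    (linSieve x y k X z).multSum d =
      (((Finset.Icc 1 X).filter (fun n => d ∣ (x * n + 1) * (y * n + 1))).card : ℝ) := by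
  unfold multSum linSieve
  dsimp only
  rw [Finset.sum_image (lin_injOn x y X hx), Finset.sum_boole]

theorem lin_rem (x y k X z d : ℕ) (hk : Dist x y k) (hx : x ∣ 6) (hd : Squarefree d)
    (h6 : Nat.Coprime d 6) :
    |(linSieve x y k X z).rem d| ≤ d := by
  have hx0 : 0 < x := Nat.pos_of_dvd_of_pos hx (by norm_num)
  unfold BoundingSieve.rem
  rw [lin_multSum _ _ _ _ _ _ hx0]
  have h1 : (linSieve x y k X z).nu d =
      ((d.divisors.filter (fun b => Nat.Coprime b (6 * (y * k)))).card : ℝ) / d :=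
    nu_eq _ d hd
  have h2 : (linSieve x y k X z).totalMass = X := rfl
  rw [h1, h2]
  have h3 := card_dvd_lin x y k X d hk hd (Nat.Coprime.coprime_dvd_right hx h6) h6
  have h4 : ((d.divisors.filter (fun b => Nat.Coprime b (6 * (y * k)))).card : ℝ) / d * X =
      ((d.divisors.filter (fun b => Nat.Coprime b (6 * (y * k)))).card : ℝ) * ((X : ℝ) / d) := by
    ring
  rw [h4]
  refine h3.trans ?_
  have h5 : (d.divisors.filter (fun b => Nat.Coprime b (6 * (y * k)))).card ≤ d :=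
    (Finset.card_filter_le _ _).trans (Nat.card_divisors_le_self d)
  exact_mod_cast h5

theorem lin_sieve_bound (x y k X D : ℕ) (hk : Dist x y k) (hx : x ∣ 6) (hD : 1 ≤ D) :
    (linSieve x y k X D).siftedSum ≤ (X : ℝ) / SS (linSieve x y k X D) D + (D : ℝ) ^ 6 := by
  have h := selberg_bound (linSieve x y k X D) D hD (D : ℝ) ((D : ℝ) ^ 2) (by positivity)
    (by positivity) ?_ ?_
  · refine h.trans (le_of_eq ?_)
    have h2 : (linSieve x y k X D).totalMass = X := rfl
    rw [h2]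
    ring
  · intro d hdP hdD
    have hsq : Squarefree d := (P6_sq D).squarefree_of_dvd hdP
    have h1 : ((linSieve x y k X D).nu d)⁻¹ ≤ d :=
      pair_nu_inv (6 * (y * k)) X D d (two_dvd_six_mul _) hsq
    refine h1.trans ?_
    exact_mod_cast hdD
  · intro d hdP hdD
    have hsq : Squarefree d := (P6_sq D).squarefree_of_dvd hdP
    refine (lin_rem x y k X D d hk hx hsq
      (Nat.Coprime.coprime_dvd_left hdP (P6_coprime D))).trans ?_
    exact_mod_cast hdD

/-- the set of `z ≤ X` with `x z + 1` and `y z + 1` prime -/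
def TT (x y X : ℕ) : Finset ℕ :=
  (Finset.Icc 1 X).filter (fun z => (x * z + 1).Prime ∧ (y * z + 1).Prime)

theorem card_TT_le (x y k X D : ℕ) (hx : 0 < x) (hy : 0 < y) :
    ((TT x y X).card : ℝ) ≤ D + (linSieve x y k X D).siftedSum := by
  have h1 : (linSieve x y k X D).siftedSum =
      (((Finset.Icc 1 X).filter
        (fun n => Nat.Coprime (P6 D) ((x * n + 1) * (y * n + 1)))).card : ℝ) := by
    unfold siftedSum linSieve
    dsimp only
    rw [Finset.sum_image (lin_injOn x y X hx), Finset.sum_boole]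
  rw [h1]
  have h2 : TT x y X ⊆
      Finset.Icc 1 D ∪ (Finset.Icc 1 X).filter
        (fun n => Nat.Coprime (P6 D) ((x * n + 1) * (y * n + 1))) := by
    intro q hq
    unfold TT at hq
    rw [Finset.mem_filter, Finset.mem_Icc] at hq
    obtain ⟨⟨hq1, hqX⟩, hqp, hmq⟩ := hq
    rw [Finset.mem_union, Finset.mem_Icc, Finset.mem_filter, Finset.mem_Icc]
    by_cases hqD : q ≤ D
    · left; exact ⟨hq1, hqD⟩
    · right
      refine ⟨⟨hq1, hqX⟩, ?_⟩
      push Not at hqD
      have hc : ∀ a : ℕ, 0 < a → (a * q + 1).Prime → Nat.Coprime (P6 D) (a * q + 1) := by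
        intro a ha hp
        apply Nat.Coprime.coprime_dvd_left (P6_dvd D)
        apply Nat.Coprime.symm
        rw [hp.coprime_iff_not_dvd, hp.dvd_primorial_iff]
        have : q ≤ a * q := Nat.le_mul_of_pos_left q ha
        omega
      exact Nat.Coprime.mul_right (hc x hx hqp) (hc y hy hmq)
  have h3 := (Finset.card_le_card h2).trans (Finset.card_union_le _ _)
  rw [Nat.card_Icc, Nat.add_sub_cancel] at h3
  exact_mod_cast h3

theorem SS_ge_lin (x y k X D : ℕ) :
    ∑ l ∈ QQ 6 D, ((l.divisors.filter (fun b => Nat.Coprime b (6 * (y * k)))).card : ℝ) / l ≤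
      SS (linSieve x y k X D) D := by
  unfold SS
  have hsub : QQ 6 D ⊆ (linSieve x y k X D).prodPrimes.divisors := by
    intro l hl
    rw [mem_QQ] at hl
    rw [Nat.mem_divisors]
    refine ⟨?_, prodPrimes_ne_zero⟩
    exact dvd_P6 (hl.2.1.dvd_primorial.trans (primorial_dvd_primorial hl.1.2)) hl.2.2
  calc ∑ l ∈ QQ 6 D, ((l.divisors.filter (fun b => Nat.Coprime b (6 * (y * k)))).card : ℝ) / l
      ≤ ∑ l ∈ QQ 6 D, (if l ≤ D then (linSieve x y k X D).selbergTerms l else 0) := by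
        apply Finset.sum_le_sum
        intro l hl
        rw [mem_QQ] at hl
        rw [if_pos hl.1.2]
        have h1 : l ∈ QQ 1 D := by
          rw [mem_QQ]
          exact ⟨hl.1, hl.2.1, Nat.coprime_one_right _⟩
        have h2 := selbergTerms_lower (6 * (y * k)) X D l (two_dvd_six_mul _) h1
        rw [selbergTerms_apply] at h2 ⊢
        exact h2
    _ ≤ _ := by
        apply Finset.sum_le_sum_of_subset_of_nonneg hsub
        intro i hi _
        split_ifs
        · exact (selbergTerms_pos (Nat.dvd_of_mem_divisors hi)).le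
        · exact le_rfl

theorem QQ_compare (m D : ℕ) (hm : 6 ∣ m) :
    ∑ l ∈ QQ 1 D, ((l.divisors.filter (fun b => Nat.Coprime b m)).card : ℝ) / l ≤
      2 * ∑ l ∈ QQ 6 D, ((l.divisors.filter (fun b => Nat.Coprime b m)).card : ℝ) / l := by
  let φ : ℕ → ℕ × ℕ := fun l => (Nat.gcd l 6, l / Nat.gcd l 6)
  have hval : ∀ l ∈ QQ 1 D, ((l.divisors.filter (fun b => Nat.Coprime b m)).card : ℝ) / l =
      (fun y : ℕ × ℕ => (1 / (y.1 : ℝ)) *
        (((y.2.divisors.filter (fun b => Nat.Coprime b m)).card : ℝ) / y.2)) (φ l) := by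
    intro l hl
    rw [mem_QQ] at hl
    have hg : Nat.gcd l 6 ∣ l := Nat.gcd_dvd_left _ _
    have hl0 : l ≠ 0 := by omega
    have hset : l.divisors.filter (fun b => Nat.Coprime b m) =
        (l / Nat.gcd l 6).divisors.filter (fun b => Nat.Coprime b m) := by
      ext b
      rw [Finset.mem_filter, Finset.mem_filter, Nat.mem_divisors, Nat.mem_divisors]
      constructor
      · rintro ⟨⟨h1, h2⟩, h3⟩
        refine ⟨⟨?_, ?_⟩, h3⟩
        · have h4 : b ∣ (l / Nat.gcd l 6) * Nat.gcd l 6 := by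
            rw [Nat.div_mul_cancel hg]; exact h1
          have h5 : Nat.Coprime b (Nat.gcd l 6) :=
            Nat.Coprime.coprime_dvd_right ((Nat.gcd_dvd_right l 6).trans hm) h3
          exact h5.dvd_of_dvd_mul_right h4
        · intro h0
          have := Nat.div_mul_cancel hg
          rw [h0] at this
          omega
      · rintro ⟨⟨h1, h2⟩, h3⟩
        exact ⟨⟨h1.trans (Nat.div_dvd_of_dvd hg), hl0⟩, h3⟩
    show ((l.divisors.filter (fun b => Nat.Coprime b m)).card : ℝ) / l =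
      (1 / (Nat.gcd l 6 : ℝ)) * ((((l / Nat.gcd l 6).divisors.filter
        (fun b => Nat.Coprime b m)).card : ℝ) / ((l / Nat.gcd l 6 : ℕ) : ℝ))
    rw [← hset]
    have e1 : (l : ℝ) = (Nat.gcd l 6 : ℝ) * ((l / Nat.gcd l 6 : ℕ) : ℝ) := by
      rw [← Nat.cast_mul, Nat.mul_div_cancel' hg]
    rw [one_div_mul_eq_div, div_div, mul_comm (((l / Nat.gcd l 6 : ℕ) : ℝ)), ← e1]
  have hinj : Set.InjOn φ (QQ 1 D : Finset ℕ) := by
    intro a _ b _ hab
    have h1 : Nat.gcd a 6 = Nat.gcd b 6 := congrArg Prod.fst hab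
    have h2 : a / Nat.gcd a 6 = b / Nat.gcd b 6 := congrArg Prod.snd hab
    rw [← Nat.div_mul_cancel (Nat.gcd_dvd_left a 6), h2, h1,
      Nat.div_mul_cancel (Nat.gcd_dvd_left b 6)]
  rw [Finset.sum_congr rfl hval, ← Finset.sum_image
    (f := fun y : ℕ × ℕ => (1 / (y.1 : ℝ)) *
        (((y.2.divisors.filter (fun b => Nat.Coprime b m)).card : ℝ) / y.2)) hinj]
  have hsub : (QQ 1 D).image φ ⊆ (Nat.divisors 6) ×ˢ QQ 6 D := by
    intro y hy
    rw [Finset.mem_image] at hy
    obtain ⟨l, hl, rfl⟩ := hy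
    rw [mem_QQ] at hl
    obtain ⟨⟨h1, h2⟩, h3, h4⟩ := hl
    have hg : Nat.gcd l 6 ∣ l := Nat.gcd_dvd_left _ _
    have hq : l / Nat.gcd l 6 ∣ l := Nat.div_dvd_of_dvd hg
    rw [Finset.mem_product, Nat.mem_divisors, mem_QQ]
    refine ⟨⟨Nat.gcd_dvd_right _ _, by norm_num⟩,
      ⟨Nat.pos_of_dvd_of_pos hq h1, (Nat.le_of_dvd h1 hq).trans h2⟩, h3.squarefree_of_dvd hq, ?_⟩
    show Nat.Coprime (l / Nat.gcd l 6) 6
    apply Nat.coprime_of_dvd
    intro p hp h5 h6
    have h7 : p ∣ Nat.gcd l 6 := Nat.dvd_gcd (h5.trans hq) h6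
    have h8 : p * p ∣ l := by
      have := Nat.mul_dvd_mul h5 h7
      rwa [Nat.div_mul_cancel hg] at this
    have := h3 p h8
    exact hp.one_lt.ne' (Nat.isUnit_iff.mp this)
  refine (Finset.sum_le_sum_of_subset_of_nonneg hsub (fun i _ _ => by positivity)).trans ?_
  rw [Finset.sum_product]
  simp_rw [← Finset.mul_sum]
  rw [← Finset.sum_mul]
  have hs : ∑ h ∈ Nat.divisors 6, (1 : ℝ) / h = 2 := by
    have : Nat.divisors 6 = {1, 2, 3, 6} := by decide
    rw [this]
    norm_num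
  rw [hs]

/-- `σ₋₁` -/
def sg (m : ℕ) : ℝ := ∑ h ∈ m.divisors, (1 : ℝ) / h

theorem sg_nonneg (m : ℕ) : 0 ≤ sg m := Finset.sum_nonneg (fun i _ => by positivity)

theorem log_sq_lin (x y k X w : ℕ) (hm0 : 0 < 6 * (y * k)) (hw : 1 ≤ w) :
    (Real.log w) ^ 2 ≤ 16 * sg (6 * (y * k)) *
      SS (linSieve x y k X (w ^ 2)) (w ^ 2) := by
  set m := 6 * (y * k) with hm
  have h1 : Real.log w ≤ ∑ n ∈ Finset.Icc 1 w, (1 : ℝ) / n := by
    have h := log_add_one_le_harmonic w
    have h2 : ((harmonic w : ℚ) : ℝ) = ∑ n ∈ Finset.Icc 1 w, (1 : ℝ) / n := by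
      rw [harmonic_eq_sum_Icc]
      push_cast
      simp
    rw [h2] at h
    refine le_trans ?_ h
    apply Real.log_le_log
    · exact_mod_cast hw
    · exact_mod_cast Nat.le_succ w
  have h0 : 0 ≤ Real.log w := Real.log_natCast_nonneg w
  have h2 := H_le m w hm0
  have h2' := H_le 1 w one_pos
  have h3 := U_mul_le m w
  have h4 := (sum_PP_le m w).trans (QQ_compare m (w ^ 2) ⟨y * k, hm⟩)
  have h6 := SS_ge_lin x y k X (w ^ 2)
  rw [← hm] at h6
  have hU : 0 ≤ ∑ a ∈ QQ m w, (1 : ℝ) / a := Finset.sum_nonneg (fun i _ => by positivity)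
  have hU1 : 0 ≤ ∑ a ∈ QQ 1 w, (1 : ℝ) / a := Finset.sum_nonneg (fun i _ => by positivity)
  have hs : 0 ≤ sg m := sg_nonneg m
  have h5 : Real.log w ≤ 2 * ∑ a ∈ QQ 1 w, (1 : ℝ) / a := by
    refine h1.trans (h2'.trans (le_of_eq ?_))
    simp
  have h7 : Real.log w ≤ 2 * sg m * ∑ a ∈ QQ m w, (1 : ℝ) / a := h1.trans h2
  calc (Real.log w) ^ 2 = Real.log w * Real.log w := sq _
    _ ≤ (2 * sg m * ∑ a ∈ QQ m w, (1 : ℝ) / a) *
        (2 * ∑ a ∈ QQ 1 w, (1 : ℝ) / a) := by
        apply mul_le_mul h7 h5 h0 (by positivity)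
    _ = 4 * sg m *
        ((∑ a ∈ QQ m w, (1 : ℝ) / a) * ∑ a ∈ QQ 1 w, (1 : ℝ) / a) := by ring
    _ ≤ 4 * sg m * (4 * SS (linSieve x y k X (w ^ 2)) (w ^ 2)) := by
        apply mul_le_mul_of_nonneg_left _ (by positivity)
        linarith
    _ = _ := by ring

/-- explicit upper bound -/
theorem card_TT_explicit (x y k X w : ℕ) (hk : Dist x y k) (hx : x ∣ 6) (hy : 0 < y) (hk0 : 0 < k)
    (hw : 2 ≤ w) :
    ((TT x y X).card : ℝ) ≤
      16 * sg (6 * (y * k)) * X / (Real.log w) ^ 2 + 2 * (w : ℝ) ^ 12 := by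
  have hx0 : 0 < x := Nat.pos_of_dvd_of_pos hx (by norm_num)
  have hm0 : 0 < 6 * (y * k) := by positivity
  have h1 := card_TT_le x y k X (w ^ 2) hx0 hy
  have h2 := lin_sieve_bound x y k X (w ^ 2) hk hx (Nat.one_le_pow _ _ (by omega))
  have h3 := log_sq_lin x y k X w hm0 (by omega)
  have hlog : 0 < Real.log w := Real.log_pos (by exact_mod_cast (by omega : 1 < w))
  have hS : 0 < SS (linSieve x y k X (w ^ 2)) (w ^ 2) :=
    lt_of_lt_of_le one_pos (one_le_SS _ _ (Nat.one_le_pow _ _ (by omega)))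
  have h4 : (X : ℝ) / SS (linSieve x y k X (w ^ 2)) (w ^ 2) ≤
      16 * sg (6 * (y * k)) * X / (Real.log w) ^ 2 := by
    rw [div_le_div_iff₀ hS (by positivity)]
    calc (X : ℝ) * (Real.log w) ^ 2 ≤ X * (16 * sg (6 * (y * k)) *
          SS (linSieve x y k X (w ^ 2)) (w ^ 2)) := by
          gcongr
      _ = _ := by ring
  have h5 : ((w ^ 2 : ℕ) : ℝ) + (((w ^ 2 : ℕ) : ℝ)) ^ 6 ≤ 2 * (w : ℝ) ^ 12 := by
    push_cast
    have hw1 : (1 : ℝ) ≤ w := by exact_mod_cast (by omega : 1 ≤ w)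
    have : (w : ℝ) ^ 2 ≤ (w : ℝ) ^ 12 := pow_le_pow_right₀ hw1 (by norm_num)
    have h6 : ((w : ℝ) ^ 2) ^ 6 = (w : ℝ) ^ 12 := by ring
    rw [h6]
    linarith
  linarith

/-- the same bound with a real parameter -/
theorem card_TT_real (x y k X : ℕ) (t : ℝ) (hk : Dist x y k) (hx : x ∣ 6) (hy : 0 < y)
    (hk0 : 0 < k) (ht : (2 : ℝ) ^ 24 ≤ t) :
    ((TT x y X).card : ℝ) ≤ 9216 * sg (6 * (y * k)) * X / (Real.log t) ^ 2 + 2 * t := by
  set u : ℝ := t ^ ((1 : ℝ) / 12) with hu
  have ht0 : (0 : ℝ) < t := lt_of_lt_of_le (by positivity) ht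
  have hu12 : u ^ 12 = t := by
    rw [hu, ← Real.rpow_natCast, ← Real.rpow_mul ht0.le]
    norm_num
  have hu0 : 0 < u := Real.rpow_pos_of_pos ht0 _
  have hu4 : 4 ≤ u := by
    by_contra h
    push Not at h
    have : u ^ 12 < 4 ^ 12 := pow_lt_pow_left₀ h hu0.le (by norm_num)
    rw [hu12] at this
    norm_num at this ht
    linarith
  set w : ℕ := ⌊u⌋₊ with hw
  have hwu : (w : ℝ) ≤ u := Nat.floor_le hu0.le
  have hwu2 : u < w + 1 := Nat.lt_floor_add_one u
  have hw2 : 2 ≤ w := by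
    apply Nat.le_floor
    push_cast
    linarith
  have hwhalf : u / 2 ≤ w := by linarith
  have hlogt : Real.log t = 12 * Real.log u := by
    rw [← hu12, Real.log_pow]
    norm_num
  have hlog2u : 2 * Real.log 2 ≤ Real.log u := by
    have h1 : Real.log 4 ≤ Real.log u := Real.log_le_log (by norm_num) hu4
    have h2 : Real.log 4 = 2 * Real.log 2 := by
      rw [show (4 : ℝ) = 2 ^ 2 by norm_num, Real.log_pow]
      norm_num
    linarith
  have hlogw : Real.log t / 24 ≤ Real.log w := by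
    have h1 : Real.log (u / 2) ≤ Real.log w := Real.log_le_log (by positivity) hwhalf
    rw [Real.log_div hu0.ne' (by norm_num)] at h1
    rw [hlogt]
    linarith
  have hlogt0 : 0 < Real.log t := by
    rw [hlogt]
    have := Real.log_pos (show (1 : ℝ) < 2 by norm_num)
    linarith
  have h := card_TT_explicit x y k X w hk hx hy hk0 hw2
  have hs := sg_nonneg (6 * (y * k))
  have h1 : 16 * sg (6 * (y * k)) * (X : ℝ) / (Real.log w) ^ 2 ≤
      9216 * sg (6 * (y * k)) * X / (Real.log t) ^ 2 := by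
    have h2 : (Real.log t / 24) ^ 2 ≤ (Real.log w) ^ 2 :=
      pow_le_pow_left₀ (by positivity) hlogw 2
    calc 16 * sg (6 * (y * k)) * (X : ℝ) / (Real.log w) ^ 2 ≤
        16 * sg (6 * (y * k)) * X / (Real.log t / 24) ^ 2 := by
          gcongr
      _ = 9216 * sg (6 * (y * k)) * X / (Real.log t) ^ 2 := by
          field_simp
          ring
  have h2 : 2 * (w : ℝ) ^ 12 ≤ 2 * t := by
    have : (w : ℝ) ^ 12 ≤ u ^ 12 := pow_le_pow_left₀ (by positivity) hwu 12
    rw [hu12] at this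
    linarith
  linarith

end

end Pool.Agent.TTP
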