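import Mathlib
import Pool.Agent.TTP.Sieve

/-!
Averages of `σ₋₁`.
-/

open Finset

namespace Pool.Agent.TTP

noncomputable section

theorem sg_mul_le (a b : ℕ) (ha : 0 < a) (hb : 0 < b) : sg (a * b) ≤ sg a * sg b := by
  have hex : ∀ h : ℕ, ∃ x : ℕ × ℕ, h ∣ a * b → (x.1 ∣ a ∧ x.2 ∣ b ∧ x.1 * x.2 = h) := by
    intro h
    by_cases hh : h ∣ a * b
    · obtain ⟨k1, k2, h1, h2, h3⟩ := (Nat.dvd_mul).mp hh
      exact ⟨(k1, k2), fun _ => ⟨h1, h2, h3⟩⟩
    · exact ⟨(0, 0), fun h' => absurd h' hh⟩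
  choose φ hφ using hex
  unfold sg
  rw [Finset.sum_mul_sum, ← Finset.sum_product']
  have hval : ∀ h ∈ (a * b).divisors, (1 : ℝ) / h =
      (fun y : ℕ × ℕ => (1 / (y.1 : ℝ)) * (1 / (y.2 : ℝ))) (φ h) := by
    intro h hh
    rw [Nat.mem_divisors] at hh
    obtain ⟨-, -, h3⟩ := hφ h hh.1
    have h4 : (h : ℝ) = ((φ h).1 : ℝ) * ((φ h).2 : ℝ) := by
      have : (((φ h).1 * (φ h).2 : ℕ) : ℝ) = (h : ℝ) := by rw [h3]
      push_cast at this
      exact this.symm
    show (1 : ℝ) / h = (1 / ((φ h).1 : ℝ)) * (1 / ((φ h).2 : ℝ))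
    rw [h4, one_div_mul_one_div]
  have hinj : Set.InjOn φ ((a * b).divisors : Finset ℕ) := by
    intro x hx y hy hxy
    rw [Finset.mem_coe, Nat.mem_divisors] at hx hy
    rw [← (hφ x hx.1).2.2, ← (hφ y hy.1).2.2, hxy]
  rw [Finset.sum_congr rfl hval, ← Finset.sum_image
    (f := fun y : ℕ × ℕ => (1 / (y.1 : ℝ)) * (1 / (y.2 : ℝ))) hinj]
  apply Finset.sum_le_sum_of_subset_of_nonneg
  · intro y hy
    rw [Finset.mem_image] at hy
    obtain ⟨h, hh, rfl⟩ := hy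
    rw [Nat.mem_divisors] at hh
    obtain ⟨h1, h2, -⟩ := hφ h hh.1
    rw [Finset.mem_product, Nat.mem_divisors, Nat.mem_divisors]
    exact ⟨⟨h1, ha.ne'⟩, ⟨h2, hb.ne'⟩⟩
  · intro i _ _
    positivity

theorem sum_three_half (n : ℕ) (hn : 1 ≤ n) :
    ∑ h ∈ Finset.Icc 1 n, (1 : ℝ) / (h * √(h : ℝ)) ≤ 3 - 2 / √(n : ℝ) := by
  induction n, hn using Nat.le_induction with
  | base => norm_num
  | succ n hn ih =>
    rw [Finset.sum_Icc_succ_top (by omega)]
    have hn0 : (0 : ℝ) < n := by exact_mod_cast hn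
    set a : ℝ := √(n : ℝ) with ha
    set b : ℝ := √((n + 1 : ℕ) : ℝ) with hb
    have ha0 : 0 < a := Real.sqrt_pos.2 hn0
    have hb0 : 0 < b := Real.sqrt_pos.2 (by positivity)
    have ha2 : a ^ 2 = n := Real.sq_sqrt hn0.le
    have hb2 : b ^ 2 = n + 1 := by
      rw [hb, Real.sq_sqrt (by positivity)]
      push_cast
      ring
    have hab : a ≤ b := by
      rw [ha, hb]
      apply Real.sqrt_le_sqrt
      push_cast
      linarith
    have hb1 : ((n + 1 : ℕ) : ℝ) = b ^ 2 := by rw [hb2]; push_cast; ring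
    have key : 1 / (b ^ 2 * b) ≤ 2 / a - 2 / b := by
      rw [div_sub_div _ _ ha0.ne' hb0.ne', div_le_div_iff₀ (by positivity) (by positivity)]
      have h1 : (b - a) * (b + a) = 1 := by nlinarith
      have h2 : a ≤ 2 * b ^ 2 * (b - a) := by
        have h3 : a * (b + a) ≤ 2 * b ^ 2 := by nlinarith
        have h4 : 0 ≤ b - a := by linarith
        calc a = (a * (b + a)) * (b - a) := by
              have : (a * (b + a)) * (b - a) = a * ((b - a) * (b + a)) := by ring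
              rw [this, h1, mul_one]
          _ ≤ 2 * b ^ 2 * (b - a) := mul_le_mul_of_nonneg_right h3 h4
      nlinarith
    rw [hb1]
    linarith

/-- second moment of `σ₋₁` -/
theorem sum_sg_sq (B : ℕ) : ∑ y ∈ Finset.Icc 1 B, sg y ^ 2 ≤ 9 * B := by
  rcases Nat.eq_zero_or_pos B with hB | hB
  · subst hB; simp
  have hsg : ∀ y ∈ Finset.Icc 1 B, sg y = ∑ h ∈ Finset.Icc 1 B, if h ∣ y then (1 : ℝ) / h else 0 := by
    intro y hy
    rw [Finset.mem_Icc] at hy
    rw [← Finset.sum_filter]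
    unfold sg
    apply Finset.sum_congr _ (fun _ _ => rfl)
    ext h
    rw [Nat.mem_divisors, Finset.mem_filter, Finset.mem_Icc]
    constructor
    · rintro ⟨h1, h2⟩
      exact ⟨⟨Nat.pos_of_dvd_of_pos h1 hy.1, (Nat.le_of_dvd hy.1 h1).trans hy.2⟩, h1⟩
    · rintro ⟨_, h1⟩
      exact ⟨h1, by omega⟩
  have hcount : ∀ h ∈ Finset.Icc 1 B,
      (((Finset.Icc 1 B).filter (fun y => h ∣ y)).card : ℝ) ≤ B / h := by
    intro h hh
    rw [Finset.mem_Icc] at hh
    have h1 : (Finset.Icc 1 B).filter (fun y => h ∣ y) = (Finset.Ioc 0 B).filter (fun y => h ∣ y) := by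
      ext y
      simp only [Finset.mem_filter, Finset.mem_Icc, Finset.mem_Ioc]
      constructor <;> rintro ⟨⟨h1, h2⟩, h3⟩ <;> exact ⟨⟨by omega, h2⟩, h3⟩
    rw [h1, Nat.Ioc_filter_dvd_card_eq_div]
    exact Nat.cast_div_le
  have hcount2 : ∀ h1 ∈ Finset.Icc 1 B, ∀ h2 ∈ Finset.Icc 1 B,
      ∑ y ∈ Finset.Icc 1 B, (if h1 ∣ y then (1 : ℝ) / h1 else 0) * (if h2 ∣ y then (1 : ℝ) / h2 else 0)
        ≤ B * ((1 / (h1 * √(h1 : ℝ))) * (1 / (h2 * √(h2 : ℝ)))) := by
    intro h1 hh1 h2 hh2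
    have c1 := hcount h1 hh1
    have c2 := hcount h2 hh2
    rw [Finset.mem_Icc] at hh1 hh2
    have p1 : (0 : ℝ) < h1 := by exact_mod_cast hh1.1
    have p2 : (0 : ℝ) < h2 := by exact_mod_cast hh2.1
    set N : ℝ := (((Finset.Icc 1 B).filter (fun y => h1 ∣ y ∧ h2 ∣ y)).card : ℝ) with hN
    have hN0 : 0 ≤ N := by positivity
    have n1 : N ≤ B / h1 := by
      refine le_trans ?_ c1
      rw [hN]
      have hs : (Finset.Icc 1 B).filter (fun y => h1 ∣ y ∧ h2 ∣ y) ⊆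
          (Finset.Icc 1 B).filter (fun y => h1 ∣ y) := by
        intro y hy
        rw [Finset.mem_filter] at hy ⊢
        exact ⟨hy.1, hy.2.1⟩
      exact_mod_cast Finset.card_le_card hs
    have n2 : N ≤ B / h2 := by
      refine le_trans ?_ c2
      rw [hN]
      have hs : (Finset.Icc 1 B).filter (fun y => h1 ∣ y ∧ h2 ∣ y) ⊆
          (Finset.Icc 1 B).filter (fun y => h2 ∣ y) := by
        intro y hy
        rw [Finset.mem_filter] at hy ⊢
        exact ⟨hy.1, hy.2.2⟩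
      exact_mod_cast Finset.card_le_card hs
    have hB0 : (0 : ℝ) ≤ B := Nat.cast_nonneg B
    have n3 : N ≤ B / (√(h1 : ℝ) * √(h2 : ℝ)) := by
      apply le_of_sq_le_sq _ (by positivity)
      have e : (B / (√(h1 : ℝ) * √(h2 : ℝ))) ^ 2 = (B / h1) * (B / h2) := by
        rw [div_pow, mul_pow, Real.sq_sqrt p1.le, Real.sq_sqrt p2.le]
        field_simp
      rw [e, sq]
      exact mul_le_mul n1 n2 hN0 (by positivity)
    have hsum : ∑ y ∈ Finset.Icc 1 B, (if h1 ∣ y then (1 : ℝ) / h1 else 0) *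
        (if h2 ∣ y then (1 : ℝ) / h2 else 0) = N * ((1 / h1) * (1 / h2)) := by
      have : ∀ y ∈ Finset.Icc 1 B, (if h1 ∣ y then (1 : ℝ) / h1 else 0) *
          (if h2 ∣ y then (1 : ℝ) / h2 else 0) =
          (if (h1 ∣ y ∧ h2 ∣ y) then (1 : ℝ) else 0) * ((1 / h1) * (1 / h2)) := by
        intro y _
        by_cases a1 : h1 ∣ y <;> by_cases a2 : h2 ∣ y <;> simp [a1, a2]
      rw [Finset.sum_congr rfl this, ← Finset.sum_mul, Finset.sum_boole]
    rw [hsum]
    calc N * ((1 / h1) * (1 / h2)) ≤ B / (√(h1 : ℝ) * √(h2 : ℝ)) * ((1 / h1) * (1 / h2)) := by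
          gcongr
      _ = _ := by
          have s1 : 0 < √(h1 : ℝ) := Real.sqrt_pos.2 p1
          have s2 : 0 < √(h2 : ℝ) := Real.sqrt_pos.2 p2
          field_simp
  have hK := sum_three_half B hB
  have hK3 : ∑ h ∈ Finset.Icc 1 B, (1 : ℝ) / (h * √(h : ℝ)) ≤ 3 := by
    have : 0 ≤ 2 / √(B : ℝ) := by positivity
    linarith
  have hK0 : 0 ≤ ∑ h ∈ Finset.Icc 1 B, (1 : ℝ) / (h * √(h : ℝ)) :=
    Finset.sum_nonneg (fun i _ => by positivity)
  calc ∑ y ∈ Finset.Icc 1 B, sg y ^ 2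
      = ∑ y ∈ Finset.Icc 1 B, ∑ h1 ∈ Finset.Icc 1 B, ∑ h2 ∈ Finset.Icc 1 B,
          (if h1 ∣ y then (1 : ℝ) / h1 else 0) * (if h2 ∣ y then (1 : ℝ) / h2 else 0) := by
        apply Finset.sum_congr rfl
        intro y hy
        rw [hsg y hy, sq, Finset.sum_mul_sum]
    _ = ∑ h1 ∈ Finset.Icc 1 B, ∑ h2 ∈ Finset.Icc 1 B, ∑ y ∈ Finset.Icc 1 B,
          (if h1 ∣ y then (1 : ℝ) / h1 else 0) * (if h2 ∣ y then (1 : ℝ) / h2 else 0) := by
        rw [Finset.sum_comm]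
        apply Finset.sum_congr rfl
        intro h1 _
        rw [Finset.sum_comm]
    _ ≤ ∑ h1 ∈ Finset.Icc 1 B, ∑ h2 ∈ Finset.Icc 1 B,
          B * ((1 / (h1 * √(h1 : ℝ))) * (1 / (h2 * √(h2 : ℝ)))) := by
        apply Finset.sum_le_sum
        intro h1 hh1
        apply Finset.sum_le_sum
        intro h2 hh2
        exact hcount2 h1 hh1 h2 hh2
    _ = B * ((∑ h ∈ Finset.Icc 1 B, (1 : ℝ) / (h * √(h : ℝ))) *
          (∑ h ∈ Finset.Icc 1 B, (1 : ℝ) / (h * √(h : ℝ)))) := by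
        rw [Finset.sum_mul_sum, Finset.mul_sum]
        apply Finset.sum_congr rfl
        intro h1 _
        rw [Finset.mul_sum]
    _ ≤ B * (3 * 3) := by
        gcongr
    _ = 9 * B := by ring

theorem sum_inj_le (A T : Finset ℕ) (g : ℕ → ℕ) (hg : Set.InjOn g (A : Set ℕ))
    (hm : ∀ a ∈ A, g a ∈ T) (f : ℕ → ℝ) (hf : ∀ n, 0 ≤ f n) :
    ∑ a ∈ A, f (g a) ≤ ∑ t ∈ T, f t := by
  rw [← Finset.sum_image (f := f) hg]
  exact Finset.sum_le_sum_of_subset_of_nonneg (Finset.image_subset_iff.2 hm) (fun i _ _ => hf i)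

/-- the distance -/
def kk (x y : ℕ) : ℕ := (x - y) + (y - x)

theorem dist_kk (x y : ℕ) : Dist x y (kk x y) := by
  unfold Dist kk
  omega

theorem kk_pos {x y : ℕ} (h : y ≠ x) : 0 < kk x y := by
  unfold kk
  omega

theorem sum_kk (x B : ℕ) (f : ℕ → ℝ) (hf : ∀ n, 0 ≤ f n) :
    ∑ y ∈ (Finset.Icc 1 B).filter (fun y => y ≠ x), f (kk x y) ≤
      2 * ∑ k ∈ Finset.Icc 1 (B + x), f k := by
  rw [← Finset.sum_filter_add_sum_filter_not ((Finset.Icc 1 B).filter (fun y => y ≠ x))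
    (fun y => y < x)]
  rw [two_mul]
  apply add_le_add
  · apply sum_inj_le _ _ _ _ _ f hf
    · intro a ha b hb hab
      simp only [Finset.coe_filter, Finset.mem_filter, Finset.mem_Icc, Set.mem_ofPred_eq] at ha hb
      unfold kk at hab
      omega
    · intro a ha
      simp only [Finset.mem_filter, Finset.mem_Icc] at ha
      rw [Finset.mem_Icc]
      unfold kk
      omega
  · apply sum_inj_le _ _ _ _ _ f hf
    · intro a ha b hb hab
      simp only [Finset.coe_filter, Finset.mem_filter, Finset.mem_Icc, Set.mem_ofPred_eq] at ha hb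
      unfold kk at hab
      omega
    · intro a ha
      simp only [Finset.mem_filter, Finset.mem_Icc] at ha
      rw [Finset.mem_Icc]
      unfold kk
      omega

theorem sg_six : sg 6 = 2 := by
  unfold sg
  have : Nat.divisors 6 = {1, 2, 3, 6} := by decide
  rw [this]
  norm_num

/-- the averaged singular series -/
theorem sum_sg_kk (x B : ℕ) (hx : x ≤ 6) :
    ∑ y ∈ (Finset.Icc 1 B).filter (fun y => y ≠ x), sg (6 * (y * kk x y)) ≤ 27 * B + 108 := by
  have h1 : ∀ y ∈ (Finset.Icc 1 B).filter (fun y => y ≠ x),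
      sg (6 * (y * kk x y)) ≤ sg y ^ 2 + sg (kk x y) ^ 2 := by
    intro y hy
    rw [Finset.mem_filter, Finset.mem_Icc] at hy
    have hy0 : 0 < y := hy.1.1
    have hk0 := kk_pos hy.2
    have h2 := sg_mul_le 6 (y * kk x y) (by norm_num) (by positivity)
    have h3 := sg_mul_le y (kk x y) hy0 hk0
    rw [sg_six] at h2
    nlinarith [sq_nonneg (sg y - sg (kk x y))]
  refine (Finset.sum_le_sum h1).trans ?_
  rw [Finset.sum_add_distrib]
  have h2 : ∑ y ∈ (Finset.Icc 1 B).filter (fun y => y ≠ x), sg y ^ 2 ≤ 9 * B :=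
    (Finset.sum_le_sum_of_subset_of_nonneg (Finset.filter_subset _ _)
      (fun i _ _ => by positivity)).trans (sum_sg_sq B)
  have h3 := sum_kk x B (fun k => sg k ^ 2) (fun n => by positivity)
  have h4 := sum_sg_sq (B + x)
  push_cast at h4
  have h5 : (x : ℝ) ≤ 6 := by exact_mod_cast hx
  linarith

end

end Pool.Agent.TTP
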