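import Mathlib
import Pool.Agent.TTP.Avg

/-!
Upper bound for the number of `j ≤ Y` with `a j + b` prime.
-/

open Finset BoundingSieve ArithmeticFunction
open scoped ArithmeticFunction.Moebius ArithmeticFunction.zeta

namespace Pool.Agent.TTP

open Pool.Agent.H6

noncomputable section

/-- product of the primes `p ≤ D` not dividing `a` -/
def PA (a D : ℕ) : ℕ := primorial D / Nat.gcd (primorial D) a

theorem PA_dvd (a D : ℕ) : PA a D ∣ primorial D := Nat.div_dvd_of_dvd (Nat.gcd_dvd_left _ _)

theorem PA_sq (a D : ℕ) : Squarefree (PA a D) :=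
  (squarefree_primorial D).squarefree_of_dvd (PA_dvd a D)

theorem PA_mul (a D : ℕ) : PA a D * Nat.gcd (primorial D) a = primorial D :=
  Nat.div_mul_cancel (Nat.gcd_dvd_left _ _)

theorem PA_coprime (a D : ℕ) : Nat.Coprime (PA a D) a := by
  apply Nat.coprime_of_dvd
  intro p hp h1 h2
  have h3 : p ∣ Nat.gcd (primorial D) a := Nat.dvd_gcd (h1.trans (PA_dvd a D)) h2
  have h4 : p * p ∣ primorial D := by
    rw [← PA_mul a D]
    exact Nat.mul_dvd_mul h1 h3
  have := squarefree_primorial D p h4
  exact hp.one_lt.ne' (Nat.isUnit_iff.mp this)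

theorem dvd_PA {a D l : ℕ} (h : l ∣ primorial D) (h6 : Nat.Coprime l a) : l ∣ PA a D := by
  have h1 : l ∣ PA a D * Nat.gcd (primorial D) a := by rw [PA_mul]; exact h
  exact (Nat.Coprime.coprime_dvd_right (Nat.gcd_dvd_right _ _) h6).dvd_of_dvd_mul_right h1

theorem nu1_eq (d : ℕ) (hd : Squarefree d) :
    prodPrimeFactors (fun p : ℕ => (1 : ℝ) / p) d = 1 / d := by
  rw [prodPrimeFactors_apply hd.ne_zero]
  have h3 : (d : ℝ) = ∏ p ∈ d.primeFactors, (p : ℝ) := by
    rw [← Nat.cast_prod, Nat.prod_primeFactors_of_squarefree hd]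
  rw [h3, Finset.prod_div_distrib]
  simp

/-- the sieve for `a j + b` -/
def oneSieve (a b X z : ℕ) : BoundingSieve where
  support := (Finset.Icc 1 X).image (fun n => a * n + b)
  prodPrimes := PA a z
  prodPrimes_squarefree := PA_sq a z
  weights := fun _ => 1
  weights_nonneg := fun _ => zero_le_one
  totalMass := X
  nu := prodPrimeFactors (fun p : ℕ => (1 : ℝ) / p)
  nu_mult := IsMultiplicative.prodPrimeFactors _
  nu_pos_of_prime := by
    intro p hp _
    rw [nu1_eq p hp.prime.squarefree]
    have : (0 : ℝ) < p := by exact_mod_cast hp.pos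
    positivity
  nu_lt_one_of_prime := by
    intro p hp _
    rw [nu1_eq p hp.prime.squarefree]
    have : (1 : ℝ) < p := by exact_mod_cast hp.one_lt
    rw [div_lt_one (by linarith)]
    exact this

theorem one_injOn (a b X : ℕ) (ha : 0 < a) :
    Set.InjOn (fun n => a * n + b) (Finset.Icc 1 X : Set ℕ) := by
  intro n _ m _ h
  dsimp only at h
  exact Nat.eq_of_mul_eq_mul_left ha (by omega)

theorem one_multSum (a b X z d : ℕ) (ha : 0 < a) :
    (oneSieve a b X z).multSum d =
      (((Finset.Icc 1 X).filter (fun n => d ∣ a * n + b)).card : ℝ) := by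
  unfold multSum oneSieve
  dsimp only
  rw [Finset.sum_image (one_injOn a b X ha), Finset.sum_boole]

theorem one_rem (a b X z d : ℕ) (ha : 0 < a) (hd : Squarefree d) (hda : Nat.Coprime d a) :
    |(oneSieve a b X z).rem d| ≤ 1 := by
  unfold BoundingSieve.rem
  rw [one_multSum _ _ _ _ _ ha]
  have h1 : (oneSieve a b X z).nu d = 1 / d := nu1_eq d hd
  have h2 : (oneSieve a b X z).totalMass = X := rfl
  rw [h1, h2]
  have hdpos : 0 < d := Nat.pos_of_ne_zero hd.ne_zero
  obtain ⟨r, hr⟩ : ∃ r : ℕ, a * r + b ≡ 0 [MOD d] := by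
    have hu : IsUnit (a : ZMod d) := by
      rw [ZMod.isUnit_iff_coprime]
      exact hda.symm
    obtain ⟨u, hu⟩ := hu
    have : NeZero d := ⟨hdpos.ne'⟩
    refine ⟨(-((u⁻¹ : (ZMod d)ˣ) : ZMod d) * (b : ZMod d)).val, ?_⟩
    rw [← ZMod.natCast_eq_natCast_iff]
    push_cast
    rw [ZMod.natCast_zmod_val, ← hu]
    have : (u : ZMod d) * (-((u⁻¹ : (ZMod d)ˣ) : ZMod d) * (b : ZMod d)) + (b : ZMod d) =
        -((u : ZMod d) * ((u⁻¹ : (ZMod d)ˣ) : ZMod d)) * b + b := by ring
    rw [this, Units.mul_inv]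
    simp
  have hiff : ∀ n : ℕ, d ∣ a * n + b ↔ n ≡ r [MOD d] := by
    intro n
    constructor
    · intro h
      have h3 : a * n + b ≡ a * r + b [MOD d] := ((Nat.modEq_zero_iff_dvd).mpr h).trans hr.symm
      have h4 : a * n ≡ a * r [MOD d] := Nat.ModEq.add_right_cancel' b h3
      exact Nat.ModEq.cancel_left_of_coprime (by rw [hda]) h4
    · intro h5
      exact (Nat.modEq_zero_iff_dvd).mp (((h5.mul_left a).add_right b).trans hr)
  simp_rw [hiff]
  have h3 := card_modEq_Icc X d r hdpos
  have h4 : (1 : ℝ) / d * X = (X : ℝ) / d := by ring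
  rw [h4]
  exact h3

theorem one_sieve_bound (a b X D : ℕ) (ha : 0 < a) (hD : 1 ≤ D) :
    (oneSieve a b X D).siftedSum ≤ (X : ℝ) / SS (oneSieve a b X D) D + (D : ℝ) ^ 6 := by
  have h := selberg_bound (oneSieve a b X D) D hD (D : ℝ) ((D : ℝ) ^ 2) (by positivity)
    (by positivity) ?_ ?_
  · refine h.trans (le_of_eq ?_)
    have h2 : (oneSieve a b X D).totalMass = X := rfl
    rw [h2]
    ring
  · intro d hdP hdD
    have hsq : Squarefree d := (PA_sq a D).squarefree_of_dvd hdP
    have h1 : (oneSieve a b X D).nu d = 1 / d := nu1_eq d hsq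
    rw [h1, one_div, inv_inv]
    exact_mod_cast hdD
  · intro d hdP hdD
    have hsq : Squarefree d := (PA_sq a D).squarefree_of_dvd hdP
    refine (one_rem a b X D d ha hsq
      (Nat.Coprime.coprime_dvd_left hdP (PA_coprime a D))).trans ?_
    have : (1 : ℝ) ≤ D := by exact_mod_cast hD
    exact one_le_pow₀ this

/-- the set of `j ≤ X` with `a j + b` prime -/
def VV (a b X : ℕ) : Finset ℕ := (Finset.Icc 1 X).filter (fun j => (a * j + b).Prime)

theorem card_VV_le (a b X D : ℕ) (ha : 0 < a) :
    ((VV a b X).card : ℝ) ≤ D + (oneSieve a b X D).siftedSum := by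
  have h1 : (oneSieve a b X D).siftedSum =
      (((Finset.Icc 1 X).filter
        (fun n => Nat.Coprime (PA a D) (a * n + b))).card : ℝ) := by
    unfold siftedSum oneSieve
    dsimp only
    rw [Finset.sum_image (one_injOn a b X ha), Finset.sum_boole]
  rw [h1]
  have h2 : VV a b X ⊆
      Finset.Icc 1 D ∪ (Finset.Icc 1 X).filter
        (fun n => Nat.Coprime (PA a D) (a * n + b)) := by
    intro q hq
    unfold VV at hq
    rw [Finset.mem_filter, Finset.mem_Icc] at hq
    obtain ⟨⟨hq1, hqX⟩, hqp⟩ := hq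
    rw [Finset.mem_union, Finset.mem_Icc, Finset.mem_filter, Finset.mem_Icc]
    by_cases hqD : q ≤ D
    · left; exact ⟨hq1, hqD⟩
    · right
      refine ⟨⟨hq1, hqX⟩, ?_⟩
      push Not at hqD
      apply Nat.Coprime.coprime_dvd_left (PA_dvd a D)
      apply Nat.Coprime.symm
      rw [hqp.coprime_iff_not_dvd, hqp.dvd_primorial_iff]
      have : q ≤ a * q := Nat.le_mul_of_pos_left q ha
      omega
  have h3 := (Finset.card_le_card h2).trans (Finset.card_union_le _ _)
  rw [Nat.card_Icc, Nat.add_sub_cancel] at h3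
  exact_mod_cast h3

theorem SS_ge_one (a b X D : ℕ) :
    ∑ l ∈ QQ a D, (1 : ℝ) / l ≤ SS (oneSieve a b X D) D := by
  unfold SS
  have hsub : QQ a D ⊆ (oneSieve a b X D).prodPrimes.divisors := by
    intro l hl
    rw [mem_QQ] at hl
    rw [Nat.mem_divisors]
    refine ⟨?_, prodPrimes_ne_zero⟩
    exact dvd_PA (hl.2.1.dvd_primorial.trans (primorial_dvd_primorial hl.1.2)) hl.2.2
  calc ∑ l ∈ QQ a D, (1 : ℝ) / l
      ≤ ∑ l ∈ QQ a D, (if l ≤ D then (oneSieve a b X D).selbergTerms l else 0) := by
        apply Finset.sum_le_sum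
        intro l hl
        have hl' := hl
        rw [mem_QQ] at hl
        rw [if_pos hl.1.2, selbergTerms_apply]
        have hnu : (oneSieve a b X D).nu l = 1 / l := nu1_eq l hl.2.1
        rw [hnu]
        apply le_mul_of_one_le_right (by positivity)
        have hprod : ∏ p ∈ l.primeFactors, (1 : ℝ) ≤
            ∏ p ∈ l.primeFactors, (1 - (oneSieve a b X D).nu p)⁻¹ := by
          apply Finset.prod_le_prod
          · intro i _; exact zero_le_one
          · intro p hp
            have hpp := Nat.prime_of_mem_primeFactors hp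
            have hpl := Nat.dvd_of_mem_primeFactors hp
            have hdvd : p ∣ (oneSieve a b X D).prodPrimes :=
              hpl.trans (Nat.dvd_of_mem_divisors (hsub hl'))
            have e1 := (oneSieve a b X D).nu_pos_of_prime p hpp hdvd
            have e2 := (oneSieve a b X D).nu_lt_one_of_prime p hpp hdvd
            rw [one_le_inv₀ (by linarith)]
            linarith
        simpa using hprod
    _ ≤ _ := by
        apply Finset.sum_le_sum_of_subset_of_nonneg hsub
        intro i hi _
        split_ifs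
        · exact (selbergTerms_pos (Nat.dvd_of_mem_divisors hi)).le
        · exact le_rfl

theorem log_one (a b X D : ℕ) (ha : 0 < a) (hD : 1 ≤ D) :
    Real.log D ≤ 2 * sg a * SS (oneSieve a b X D) D := by
  have h1 : Real.log D ≤ ∑ n ∈ Finset.Icc 1 D, (1 : ℝ) / n := by
    have h := log_add_one_le_harmonic D
    have h2 : ((harmonic D : ℚ) : ℝ) = ∑ n ∈ Finset.Icc 1 D, (1 : ℝ) / n := by
      rw [harmonic_eq_sum_Icc]
      push_cast
      simp
    rw [h2] at h
    refine le_trans ?_ h
    apply Real.log_le_log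
    · exact_mod_cast hD
    · exact_mod_cast Nat.le_succ D
  have h2 := H_le a D ha
  have h3 := SS_ge_one a b X D
  have hs := sg_nonneg a
  calc Real.log D ≤ 2 * sg a * ∑ l ∈ QQ a D, (1 : ℝ) / l := h1.trans h2
    _ ≤ _ := by gcongr

theorem card_VV_explicit (a b X D : ℕ) (ha : 0 < a) (hD : 2 ≤ D) :
    ((VV a b X).card : ℝ) ≤ 2 * sg a * X / Real.log D + 2 * (D : ℝ) ^ 6 := by
  have h1 := card_VV_le a b X D ha
  have h2 := one_sieve_bound a b X D ha (by omega)
  have h3 := log_one a b X D ha (by omega)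
  have hlog : 0 < Real.log D := Real.log_pos (by exact_mod_cast (by omega : 1 < D))
  have hS : 0 < SS (oneSieve a b X D) D :=
    lt_of_lt_of_le one_pos (one_le_SS _ _ (by omega))
  have h4 : (X : ℝ) / SS (oneSieve a b X D) D ≤ 2 * sg a * X / Real.log D := by
    rw [div_le_div_iff₀ hS (by positivity)]
    calc (X : ℝ) * Real.log D ≤ X * (2 * sg a * SS (oneSieve a b X D) D) := by
          gcongr
      _ = _ := by ring
  have h5 : (D : ℝ) ≤ (D : ℝ) ^ 6 := by
    have hw1 : (1 : ℝ) ≤ D := by exact_mod_cast (by omega : 1 ≤ D)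
    exact le_self_pow₀ hw1 (by norm_num)
  linarith

theorem one_le_sg (a : ℕ) (ha : 0 < a) : 1 ≤ sg a := by
  unfold sg
  have h : (1 : ℝ) / ((1 : ℕ) : ℝ) ≤ ∑ h ∈ a.divisors, (1 : ℝ) / h :=
    Finset.single_le_sum (f := fun h : ℕ => (1 : ℝ) / h) (fun i _ => by positivity)
      (Nat.one_mem_divisors.mpr ha.ne')
  simpa using h

/-- number of prime values of a linear form, for all `X ≥ 2` -/
theorem card_VV (a b X : ℕ) (ha : 0 < a) (hX : 2 ≤ X) :
    ((VV a b X).card : ℝ) ≤ 52 * sg a * X / Real.log X := by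
  have hX0 : (0 : ℝ) < X := by exact_mod_cast (by omega : 0 < X)
  have hX1 : (1 : ℝ) < X := by exact_mod_cast (by omega : 1 < X)
  have hL : 0 < Real.log X := Real.log_pos hX1
  have hs1 := one_le_sg a ha
  rcases le_or_gt ((2 : ℝ) ^ 24) X with h | h
  · set t : ℝ := (X : ℝ) with ht
    set u : ℝ := t ^ ((1 : ℝ) / 12) with hu
    have ht0 : (0 : ℝ) < t := hX0
    have hu12 : u ^ 12 = t := by
      rw [hu, ← Real.rpow_natCast, ← Real.rpow_mul ht0.le]
      norm_num
    have hu0 : 0 < u := Real.rpow_pos_of_pos ht0 _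
    have hu4 : 4 ≤ u := by
      by_contra h'
      push Not at h'
      have : u ^ 12 < 4 ^ 12 := pow_lt_pow_left₀ h' hu0.le (by norm_num)
      rw [hu12] at this
      norm_num at this h
      linarith
    set w : ℕ := ⌊u⌋₊ with hw
    have hwu : (w : ℝ) ≤ u := Nat.floor_le hu0.le
    have hwu2 : u < w + 1 := Nat.lt_floor_add_one u
    have hw2 : 2 ≤ w := by
      apply Nat.le_floor
      push_cast
      linarith
    have hwhalf : u / 2 ≤ w := by linarith
    have hlogt : Real.log t = 12 * Real.log u := by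
      rw [← hu12, Real.log_pow]
      norm_num
    have hlog2u : 2 * Real.log 2 ≤ Real.log u := by
      have h1 : Real.log 4 ≤ Real.log u := Real.log_le_log (by norm_num) hu4
      have h2 : Real.log 4 = 2 * Real.log 2 := by
        rw [show (4 : ℝ) = 2 ^ 2 by norm_num, Real.log_pow]
        norm_num
      linarith
    have hlogw : Real.log t / 24 ≤ Real.log w := by
      have h1 : Real.log (u / 2) ≤ Real.log w := Real.log_le_log (by positivity) hwhalf
      rw [Real.log_div hu0.ne' (by norm_num)] at h1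
      rw [hlogt]
      linarith
    have h0 := card_VV_explicit a b X w ha hw2
    rw [← ht] at h0
    have h1 : 2 * sg a * t / Real.log w ≤ 48 * sg a * t / Real.log t := by
      calc 2 * sg a * t / Real.log w ≤ 2 * sg a * t / (Real.log t / 24) := by
            gcongr
        _ = 48 * sg a * t / Real.log t := by
            field_simp
            ring
    have h2 : (w : ℝ) ^ 6 ≤ u ^ 6 := pow_le_pow_left₀ (by positivity) hwu 6
    -- `log t ≤ 2 u^6`
    have h3 : Real.log t ≤ 2 * u ^ 6 := by
      have h4 : Real.log (u ^ 6) ≤ u ^ 6 - 1 := Real.log_le_sub_one_of_pos (by positivity)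
      rw [Real.log_pow] at h4
      rw [hlogt]
      push_cast at h4
      linarith
    have h4 : 2 * u ^ 6 ≤ 4 * sg a * t / Real.log t := by
      rw [le_div_iff₀ hL]
      have h5 : u ^ 6 * u ^ 6 = t := by rw [← hu12]; ring
      have h6 : 0 < u ^ 6 := by positivity
      calc 2 * u ^ 6 * Real.log t ≤ 2 * u ^ 6 * (2 * u ^ 6) := by gcongr
        _ = 4 * 1 * t := by rw [← h5]; ring
        _ ≤ 4 * sg a * t := by gcongr
    have h7 : 52 * sg a * t / Real.log t =
        48 * sg a * t / Real.log t + 4 * sg a * t / Real.log t := by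
      rw [← add_div]
      ring
    rw [h7]
    linarith
  · have h1 : ((VV a b X).card : ℝ) ≤ X := by
      have : (VV a b X).card ≤ X := by
        unfold VV
        refine (Finset.card_filter_le _ _).trans ?_
        rw [Nat.card_Icc, Nat.add_sub_cancel]
      exact_mod_cast this
    refine h1.trans ?_
    rw [le_div_iff₀ hL]
    have h2 : Real.log X ≤ 24 := by
      have h3 : Real.log X ≤ Real.log ((2 : ℝ) ^ 24) := Real.log_le_log hX0 h.le
      rw [Real.log_pow] at h3
      have h4 := Real.log_two_lt_d9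
      push_cast at h3
      nlinarith
    calc (X : ℝ) * Real.log X ≤ X * 24 := by gcongr
      _ ≤ 52 * 1 * X := by linarith
      _ ≤ 52 * sg a * X := by gcongr

end

end Pool.Agent.TTP
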