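import Mathlib
import Pool.Agent.TTP.One

/-!
Averages of `σ₋₁(k)²` over `k` with `x k + b` prime.
-/

open Finset

namespace Pool.Agent.TTP

noncomputable section

theorem sg_sq_le (k : ℕ) (hk : 0 < k) : sg k ^ 2 ≤ 3 * ∑ h ∈ k.divisors, 1 / √(h : ℝ) := by
  have hcs := Finset.sum_mul_sq_le_sq_mul_sq k.divisors
    (fun h : ℕ => 1 / √((h : ℝ) * √(h : ℝ))) (fun h : ℕ => 1 / √(√(h : ℝ)))
  have e1 : ∑ h ∈ k.divisors, (1 / √((h : ℝ) * √(h : ℝ))) * (1 / √(√(h : ℝ))) = sg k := by
    unfold sg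
    apply Finset.sum_congr rfl
    intro h _
    have h0 : (0 : ℝ) ≤ h := Nat.cast_nonneg h
    rw [one_div_mul_one_div, ← Real.sqrt_mul (by positivity), mul_assoc, Real.mul_self_sqrt h0,
      Real.sqrt_mul_self h0]
  have e2 : ∑ h ∈ k.divisors, (1 / √((h : ℝ) * √(h : ℝ))) ^ 2 ≤ 3 := by
    have : ∀ h ∈ k.divisors, (1 / √((h : ℝ) * √(h : ℝ))) ^ 2 = 1 / ((h : ℝ) * √(h : ℝ)) := by
      intro h _
      rw [div_pow, one_pow, Real.sq_sqrt (by positivity)]
    rw [Finset.sum_congr rfl this]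
    have hsub : k.divisors ⊆ Finset.Icc 1 k := by
      intro h hh
      rw [Finset.mem_Icc]
      exact ⟨Nat.pos_of_mem_divisors hh, Nat.divisor_le hh⟩
    have h1 := Finset.sum_le_sum_of_subset_of_nonneg (f := fun h : ℕ => 1 / ((h : ℝ) * √(h : ℝ)))
      hsub (fun i _ _ => by positivity)
    have h2 := sum_three_half k hk
    have h3 : 0 ≤ 2 / √(k : ℝ) := by positivity
    linarith
  have e3 : ∑ h ∈ k.divisors, (1 / √(√(h : ℝ))) ^ 2 = ∑ h ∈ k.divisors, 1 / √(h : ℝ) := by
    apply Finset.sum_congr rfl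
    intro h _
    rw [div_pow, one_pow, Real.sq_sqrt (by positivity)]
  rw [e1, e3] at hcs
  refine hcs.trans ?_
  gcongr

theorem log_le_four (h : ℝ) (hh : 0 < h) : Real.log h ≤ 4 * √(√h) - 4 := by
  have h1 : Real.log (√(√h)) ≤ √(√h) - 1 :=
    Real.log_le_sub_one_of_pos (Real.sqrt_pos.2 (Real.sqrt_pos.2 hh))
  rw [Real.log_sqrt (Real.sqrt_nonneg _), Real.log_sqrt hh.le] at h1
  linarith

theorem sg_le_four (h : ℕ) (hh : 0 < h) : sg h ≤ 4 * √(√(h : ℝ)) := by
  have hsub : h.divisors ⊆ Finset.Icc 1 h := by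
    intro j hj
    rw [Finset.mem_Icc]
    exact ⟨Nat.pos_of_mem_divisors hj, Nat.divisor_le hj⟩
  have h1 : sg h ≤ ∑ n ∈ Finset.Icc 1 h, (1 : ℝ) / n := by
    unfold sg
    exact Finset.sum_le_sum_of_subset_of_nonneg hsub (fun i _ _ => by positivity)
  have h2 : ((harmonic h : ℚ) : ℝ) = ∑ n ∈ Finset.Icc 1 h, (1 : ℝ) / n := by
    rw [harmonic_eq_sum_Icc]
    push_cast
    simp
  have h3 := harmonic_le_one_add_log h
  have h4 := log_le_four h (by exact_mod_cast hh)
  rw [h2] at h3
  linarith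

theorem sum_five_fourth (n : ℕ) (hn : 1 ≤ n) :
    ∑ h ∈ Finset.Icc 1 n, (1 : ℝ) / (h * √(√(h : ℝ))) ≤ 5 - 4 / √(√(n : ℝ)) := by
  induction n, hn using Nat.le_induction with
  | base => norm_num
  | succ n hn ih =>
    rw [Finset.sum_Icc_succ_top (by omega)]
    have hn0 : (0 : ℝ) < n := by exact_mod_cast hn
    set a : ℝ := √(√(n : ℝ)) with ha
    set b : ℝ := √(√((n + 1 : ℕ) : ℝ)) with hb
    have ha0 : 0 < a := Real.sqrt_pos.2 (Real.sqrt_pos.2 hn0)
    have hb0 : 0 < b := Real.sqrt_pos.2 (Real.sqrt_pos.2 (by positivity))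
    have ha2 : a ^ 4 = n := by
      have : a ^ 4 = (a ^ 2) ^ 2 := by ring
      rw [this, ha, Real.sq_sqrt (Real.sqrt_nonneg _), Real.sq_sqrt hn0.le]
    have hb2 : b ^ 4 = n + 1 := by
      have : b ^ 4 = (b ^ 2) ^ 2 := by ring
      rw [this, hb, Real.sq_sqrt (Real.sqrt_nonneg _), Real.sq_sqrt (by positivity)]
      push_cast
      ring
    have hab : a ≤ b := by
      rw [ha, hb]
      apply Real.sqrt_le_sqrt
      apply Real.sqrt_le_sqrt
      push_cast
      linarith
    have hb1 : ((n + 1 : ℕ) : ℝ) = b ^ 4 := by rw [hb2]; push_cast; ring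
    have key : 1 / (b ^ 4 * b) ≤ 4 / a - 4 / b := by
      rw [div_sub_div _ _ ha0.ne' hb0.ne', div_le_div_iff₀ (by positivity) (by positivity)]
      have h1 : (b - a) * ((b + a) * (b ^ 2 + a ^ 2)) = 1 := by
        have : (b - a) * ((b + a) * (b ^ 2 + a ^ 2)) = b ^ 4 - a ^ 4 := by ring
        rw [this]
        linarith
      have h2 : a ≤ 4 * b ^ 4 * (b - a) := by
        have h3 : a * ((b + a) * (b ^ 2 + a ^ 2)) ≤ b * ((b + b) * (b ^ 2 + b ^ 2)) := by gcongr
        have h4 : 0 ≤ b - a := by linarith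
        calc a = (a * ((b + a) * (b ^ 2 + a ^ 2))) * (b - a) := by
              have : (a * ((b + a) * (b ^ 2 + a ^ 2))) * (b - a) =
                a * ((b - a) * ((b + a) * (b ^ 2 + a ^ 2))) := by ring
              rw [this, h1, mul_one]
          _ ≤ (b * ((b + b) * (b ^ 2 + b ^ 2))) * (b - a) := mul_le_mul_of_nonneg_right h3 h4
          _ = 4 * b ^ 4 * (b - a) := by ring
      have h5 : (4 * b - a * 4) * (b ^ 4 * b) = (4 * b ^ 4 * (b - a)) * b := by ring
      rw [h5, one_mul]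
      exact mul_le_mul_of_nonneg_right h2 hb0.le
    rw [hb1]
    linarith

theorem sg_le_two {x : ℕ} (hx : x ∣ 6) : sg x ≤ 2 := by
  rw [← sg_six]
  unfold sg
  exact Finset.sum_le_sum_of_subset_of_nonneg (Nat.divisors_subset_of_dvd (by norm_num) hx)
    (fun i _ _ => by positivity)

theorem card_dvd_Icc (B h : ℕ) :
    (((Finset.Icc 1 B).filter (fun y => h ∣ y)).card : ℝ) ≤ B / h := by
  have h1 : (Finset.Icc 1 B).filter (fun y => h ∣ y) = (Finset.Ioc 0 B).filter (fun y => h ∣ y) := by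
    ext y
    simp only [Finset.mem_filter, Finset.mem_Icc, Finset.mem_Ioc]
    constructor <;> rintro ⟨⟨h1, h2⟩, h3⟩ <;> exact ⟨⟨by omega, h2⟩, h3⟩
  rw [h1, Nat.Ioc_filter_dvd_card_eq_div]
  exact Nat.cast_div_le

/-- multiples of `h` among the `k ≤ B` with `x k + b` prime -/
theorem card_VV_dvd (x b B h : ℕ) (hx : x ∣ 6) (hB : 16 ≤ B) (hh : h ∈ Finset.Icc 1 B) :
    (((VV x b B).filter (fun k => h ∣ k)).card : ℝ) ≤
      1664 * √(√(h : ℝ)) * (B / h) / Real.log B := by
  rw [Finset.mem_Icc] at hh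
  obtain ⟨h1, hhB⟩ := hh
  have hx0 : 0 < x := Nat.pos_of_dvd_of_pos hx (by norm_num)
  have hp : (0 : ℝ) < h := by exact_mod_cast h1
  have hB0 : (0 : ℝ) < B := by exact_mod_cast (by omega : 0 < B)
  have hLB : 0 < Real.log B := Real.log_pos (by exact_mod_cast (by omega : 1 < B))
  have hq0 : 0 < √(√(h : ℝ)) := Real.sqrt_pos.2 (Real.sqrt_pos.2 hp)
  rcases le_or_gt (h * h) B with hc | hc
  · set Y : ℕ := B / h with hY
    have hYh : h ≤ Y := (Nat.le_div_iff_mul_le h1).mpr hc
    have hBY : B < (Y + 1) * h := by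
      have h2 := Nat.div_add_mod B h
      have h3 := Nat.mod_lt B h1
      rw [← hY] at h2
      nlinarith
    have hBY2 : B < (Y + 1) * (Y + 1) := lt_of_lt_of_le hBY (Nat.mul_le_mul_left _ (by omega))
    have hY4 : 4 ≤ Y := by
      by_contra hcon
      have : Y ≤ 3 := by omega
      nlinarith
    have hBY3 : B ≤ Y ^ 4 := by
      have h2 : Y + 1 ≤ Y ^ 2 := by nlinarith
      have h3 : (Y + 1) * (Y + 1) ≤ Y ^ 2 * Y ^ 2 := Nat.mul_le_mul h2 h2
      have h4 : Y ^ 2 * Y ^ 2 = Y ^ 4 := by ring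
      omega
    have hlog : Real.log B / 4 ≤ Real.log Y := by
      have h2 : Real.log B ≤ Real.log ((Y : ℝ) ^ 4) :=
        Real.log_le_log hB0 (by exact_mod_cast hBY3)
      rw [Real.log_pow] at h2
      push_cast at h2
      linarith
    have hcard : ((VV x b B).filter (fun k => h ∣ k)).card ≤ (VV (x * h) b Y).card := by
      apply Finset.card_le_card_of_injOn (fun k => k / h)
      · intro k hk
        rw [Finset.mem_coe, Finset.mem_filter] at hk
        obtain ⟨hk1, hk2⟩ := hk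
        unfold VV at hk1
        rw [Finset.mem_filter, Finset.mem_Icc] at hk1
        obtain ⟨⟨hk3, hk4⟩, hk5⟩ := hk1
        unfold VV
        rw [Finset.mem_coe, Finset.mem_filter, Finset.mem_Icc]
        obtain ⟨j, rfl⟩ := hk2
        dsimp only
        rw [Nat.mul_div_cancel_left j h1]
        refine ⟨⟨?_, ?_⟩, ?_⟩
        · rcases Nat.eq_zero_or_pos j with hj | hj
          · subst hj
            simp at hk3
          · exact hj
        · rw [hY, Nat.le_div_iff_mul_le h1]
          rw [mul_comm]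
          exact hk4
        · rw [mul_assoc]
          exact hk5
      · intro k hk k' hk' hkk
        rw [Finset.mem_coe, Finset.mem_filter] at hk hk'
        dsimp only at hkk
        rw [← Nat.div_mul_cancel hk.2, hkk, Nat.div_mul_cancel hk'.2]
    have h2 := card_VV (x * h) b Y (by positivity) (by omega)
    have h3 : sg (x * h) ≤ 2 * (4 * √(√(h : ℝ))) := by
      refine (sg_mul_le x h hx0 h1).trans ?_
      exact mul_le_mul (sg_le_two hx) (sg_le_four h h1) (sg_nonneg h) (by norm_num)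
    have hYB : (Y : ℝ) ≤ B / h := Nat.cast_div_le
    have hc2 : (((VV x b B).filter (fun k => h ∣ k)).card : ℝ) ≤ ((VV (x * h) b Y).card : ℝ) := by
      exact_mod_cast hcard
    have hs := sg_nonneg (x * h)
    calc (((VV x b B).filter (fun k => h ∣ k)).card : ℝ) ≤ 52 * sg (x * h) * Y / Real.log Y :=
          hc2.trans h2
      _ ≤ 52 * (2 * (4 * √(√(h : ℝ)))) * (B / h) / (Real.log B / 4) := by
          gcongr
      _ = 1664 * √(√(h : ℝ)) * (B / h) / Real.log B := by
          field_simp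
          ring
  · have h2 : (((VV x b B).filter (fun k => h ∣ k)).card : ℝ) ≤ B / h := by
      refine le_trans ?_ (card_dvd_Icc B h)
      have hs : (VV x b B).filter (fun k => h ∣ k) ⊆ (Finset.Icc 1 B).filter (fun y => h ∣ y) := by
        intro y hy
        rw [Finset.mem_filter] at hy ⊢
        exact ⟨(Finset.mem_filter.mp hy.1).1, hy.2⟩
      exact_mod_cast Finset.card_le_card hs
    have h3 : Real.log B ≤ 8 * √(√(h : ℝ)) := by
      have h4 : Real.log B ≤ Real.log ((h : ℝ) * h) :=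
        Real.log_le_log hB0 (by exact_mod_cast hc.le)
      rw [Real.log_mul hp.ne' hp.ne'] at h4
      have h5 := log_le_four h hp
      linarith
    refine h2.trans ?_
    rw [le_div_iff₀ hLB]
    have h6 : (0 : ℝ) ≤ B / h := by positivity
    calc (B / h : ℝ) * Real.log B ≤ (B / h) * (8 * √(√(h : ℝ))) := by gcongr
      _ ≤ (B / h) * (1664 * √(√(h : ℝ))) := by
          gcongr
          norm_num
      _ = _ := by ring

/-- the average of `σ₋₁²` over the prime values -/
theorem sum_VV_sg (x b B : ℕ) (hx : x ∣ 6) (hB : 16 ≤ B) :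
    ∑ k ∈ VV x b B, sg k ^ 2 ≤ 24960 * B / Real.log B := by
  have hB0 : (0 : ℝ) < B := by exact_mod_cast (by omega : 0 < B)
  have hLB : 0 < Real.log B := Real.log_pos (by exact_mod_cast (by omega : 1 < B))
  have h1 : ∀ k ∈ VV x b B, sg k ^ 2 ≤
      3 * ∑ h ∈ Finset.Icc 1 B, (if h ∣ k then 1 / √(h : ℝ) else 0) := by
    intro k hk
    unfold VV at hk
    rw [Finset.mem_filter, Finset.mem_Icc] at hk
    refine (sg_sq_le k hk.1.1).trans (le_of_eq ?_)
    congr 1
    rw [← Finset.sum_filter]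
    apply Finset.sum_congr _ (fun _ _ => rfl)
    ext h
    rw [Nat.mem_divisors, Finset.mem_filter, Finset.mem_Icc]
    constructor
    · rintro ⟨h1, h2⟩
      exact ⟨⟨Nat.pos_of_dvd_of_pos h1 hk.1.1, (Nat.le_of_dvd hk.1.1 h1).trans hk.1.2⟩, h1⟩
    · rintro ⟨_, h1⟩
      exact ⟨h1, by omega⟩
  refine (Finset.sum_le_sum h1).trans ?_
  rw [← Finset.mul_sum, Finset.sum_comm]
  have h2 : ∀ h ∈ Finset.Icc 1 B, ∑ k ∈ VV x b B, (if h ∣ k then 1 / √(h : ℝ) else 0) ≤
      1664 * B / Real.log B * (1 / (h * √(√(h : ℝ)))) := by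
    intro h hh
    have h3 := card_VV_dvd x b B h hx hB hh
    rw [Finset.mem_Icc] at hh
    have hp : (0 : ℝ) < h := by exact_mod_cast hh.1
    have hq0 : 0 < √(√(h : ℝ)) := Real.sqrt_pos.2 (Real.sqrt_pos.2 hp)
    have hq2 : √(√(h : ℝ)) * √(√(h : ℝ)) = √(h : ℝ) := Real.mul_self_sqrt (Real.sqrt_nonneg _)
    rw [← Finset.sum_filter, Finset.sum_const, nsmul_eq_mul]
    calc (((VV x b B).filter (fun k => h ∣ k)).card : ℝ) * (1 / √(h : ℝ))
        ≤ (1664 * √(√(h : ℝ)) * (B / h) / Real.log B) * (1 / √(h : ℝ)) := by gcongr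
      _ = _ := by
          set q : ℝ := √(√(h : ℝ)) with hq
          have hs : √(h : ℝ) = q * q := hq2.symm
          rw [hs]
          field_simp
  have h3 := sum_five_fourth B (by omega)
  have h4 : 0 ≤ 4 / √(√(B : ℝ)) := by positivity
  calc 3 * ∑ h ∈ Finset.Icc 1 B, ∑ k ∈ VV x b B, (if h ∣ k then 1 / √(h : ℝ) else 0)
      ≤ 3 * ∑ h ∈ Finset.Icc 1 B, 1664 * B / Real.log B * (1 / (h * √(√(h : ℝ)))) := by
        gcongr with h hh
        exact h2 h hh
    _ = 3 * (1664 * B / Real.log B * ∑ h ∈ Finset.Icc 1 B, (1 / (h * √(√(h : ℝ))))) := by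
        rw [← Finset.mul_sum]
    _ ≤ 3 * (1664 * B / Real.log B * 5) := by
        gcongr
        linarith
    _ = 24960 * B / Real.log B := by ring

/-- the `y ≤ B`, `y ≠ x`, with `x y + 1` prime -/
def YY (x B : ℕ) : Finset ℕ := (VV x 1 B).filter (fun y => y ≠ x)

/-- the averaged singular series over the admissible `y` -/
theorem sum_YY (x B : ℕ) (hx : x ∣ 6) (hB : 16 ≤ B) :
    ∑ y ∈ YY x B, sg (6 * (y * kk x y)) ≤ 50000 * B / Real.log B := by
  have hB0 : (0 : ℝ) < B := by exact_mod_cast (by omega : 0 < B)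
  have hLB : 0 < Real.log B := Real.log_pos (by exact_mod_cast (by omega : 1 < B))
  have hx6 : x ≤ 6 := Nat.le_of_dvd (by norm_num) hx
  have hmem : ∀ y ∈ YY x B, (1 ≤ y ∧ y ≤ B) ∧ (x * y + 1).Prime ∧ y ≠ x := by
    intro y hy
    unfold YY VV at hy
    rw [Finset.mem_filter, Finset.mem_filter, Finset.mem_Icc] at hy
    exact ⟨hy.1.1, hy.1.2, hy.2⟩
  have h1 : ∀ y ∈ YY x B, sg (6 * (y * kk x y)) ≤ sg y ^ 2 + sg (kk x y) ^ 2 := by
    intro y hy
    obtain ⟨⟨hy1, _⟩, _, hy3⟩ := hmem y hy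
    have hk0 := kk_pos hy3
    have h2 := sg_mul_le 6 (y * kk x y) (by norm_num) (by positivity)
    have h3 := sg_mul_le y (kk x y) hy1 hk0
    rw [sg_six] at h2
    nlinarith [sq_nonneg (sg y - sg (kk x y))]
  refine (Finset.sum_le_sum h1).trans ?_
  rw [Finset.sum_add_distrib]
  have h2 : ∑ y ∈ YY x B, sg y ^ 2 ≤ 24960 * B / Real.log B :=
    (Finset.sum_le_sum_of_subset_of_nonneg (Finset.filter_subset _ _)
      (fun i _ _ => by positivity)).trans (sum_VV_sg x 1 B hx hB)
  have h3 : ∑ y ∈ YY x B, sg (kk x y) ^ 2 ≤ 54 + 24960 * B / Real.log B := by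
    rw [← Finset.sum_filter_add_sum_filter_not (YY x B) (fun y => y < x)]
    apply add_le_add
    · have h4 : ∑ y ∈ (YY x B).filter (fun y => y < x), (fun k => sg k ^ 2) (kk x y) ≤
          ∑ k ∈ Finset.Icc 1 6, (fun k => sg k ^ 2) k := by
        apply sum_inj_le _ _ _ _ _ (fun k => sg k ^ 2) (fun n => by positivity)
        · intro a ha b hb hab
          rw [Finset.mem_coe, Finset.mem_filter] at ha hb
          unfold kk at hab
          omega
        · intro a ha
          rw [Finset.mem_filter] at ha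
          have := hmem a ha.1
          rw [Finset.mem_Icc]
          unfold kk
          omega
      refine h4.trans ?_
      have := sum_sg_sq 6
      push_cast at this
      linarith
    · have h4 : ∑ y ∈ (YY x B).filter (fun y => ¬ y < x), (fun k => sg k ^ 2) (kk x y) ≤
          ∑ k ∈ VV x (x * x + 1) B, (fun k => sg k ^ 2) k := by
        apply sum_inj_le _ _ _ _ _ (fun k => sg k ^ 2) (fun n => by positivity)
        · intro a ha b hb hab
          rw [Finset.mem_coe, Finset.mem_filter] at ha hb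
          unfold kk at hab
          omega
        · intro a ha
          rw [Finset.mem_filter] at ha
          obtain ⟨⟨ha1, ha2⟩, ha3, ha4⟩ := hmem a ha.1
          have hk : kk x a = a - x := by
            unfold kk
            omega
          unfold VV
          rw [Finset.mem_filter, Finset.mem_Icc, hk]
          refine ⟨⟨by omega, by omega⟩, ?_⟩
          have : x * (a - x) + (x * x + 1) = x * a + 1 := by
            have h5 : a = (a - x) + x := by omega
            conv_rhs => rw [h5]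
            ring
          rw [this]
          exact ha3
      exact h4.trans (sum_VV_sg x (x * x + 1) B hx hB)
  have h4 : (1 : ℝ) ≤ B / Real.log B := by
    rw [le_div_iff₀ hLB, one_mul]
    have := Real.log_le_sub_one_of_pos hB0
    linarith
  have h5 : 24960 * (B : ℝ) / Real.log B = 24960 * (B / Real.log B) := by ring
  have h6 : 50000 * (B : ℝ) / Real.log B = 50000 * (B / Real.log B) := by ring
  rw [h5] at h2 h3
  rw [h6]
  linarith

end

end Pool.Agent.TTP
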